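import Mathlib

/-!
# Countable families of holomorphic functions through the points of a set
-/

set_option autoImplicit false

namespace Pool.Agent.V11277

open Filter Topology

/-- Countably many holomorphic functions (defined on open sets) pass through all points of `A`. -/
def Cap (A : Set (ℂ × ℂ)) : Prop :=
  ∃ F : Set (Set ℂ × (ℂ → ℂ)), F.Countable ∧
    (∀ p ∈ F, IsOpen p.1 ∧ DifferentiableOn ℂ p.2 p.1) ∧
    ∀ q ∈ A, ∃ p ∈ F, q.1 ∈ p.1 ∧ p.2 q.1 = q.2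

theorem Cap.mono {A B : Set (ℂ × ℂ)} (h : Cap B) (hAB : A ⊆ B) : Cap A := by
  obtain ⟨F, h1, h2, h3⟩ := h
  exact ⟨F, h1, h2, fun q hq => h3 q (hAB hq)⟩

theorem Cap.iUnion {A : ℕ → Set (ℂ × ℂ)} (h : ∀ n, Cap (A n)) : Cap (⋃ n, A n) := by
  choose F h1 h2 h3 using h
  refine ⟨⋃ n, F n, Set.countable_iUnion h1, ?_, ?_⟩
  · intro p hp
    obtain ⟨n, hn⟩ := Set.mem_iUnion.1 hp
    exact h2 n p hn
  · intro q hq
    obtain ⟨n, hn⟩ := Set.mem_iUnion.1 hq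
    obtain ⟨p, hp, h4⟩ := h3 n q hn
    exact ⟨p, Set.mem_iUnion.2 ⟨n, hp⟩, h4⟩

theorem Cap.union {A B : Set (ℂ × ℂ)} (hA : Cap A) (hB : Cap B) : Cap (A ∪ B) := by
  obtain ⟨F, h1, h2, h3⟩ := hA
  obtain ⟨G, g1, g2, g3⟩ := hB
  refine ⟨F ∪ G, h1.union g1, ?_, ?_⟩
  · rintro p (hp | hp)
    · exact h2 p hp
    · exact g2 p hp
  · rintro q (hq | hq)
    · obtain ⟨p, hp, h4⟩ := h3 q hq
      exact ⟨p, Or.inl hp, h4⟩
    · obtain ⟨p, hp, h4⟩ := g3 q hq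
      exact ⟨p, Or.inr hp, h4⟩

theorem isInvertible_of_hasDerivAt {R : ℂ × ℂ → ℂ} {q : ℂ × ℂ} (hR : ContDiffAt ℂ 1 R q) {d : ℂ}
    (hd : d ≠ 0) (h : HasDerivAt (fun y => R (q.1, y)) d q.2) :
    (fderiv ℂ R q ∘L .inr ℂ ℂ ℂ).IsInvertible := by
  have h1 : HasFDerivAt R (fderiv ℂ R q) q := (hR.differentiableAt one_ne_zero).hasFDerivAt
  have h2 : HasFDerivAt (fun y : ℂ => (q.1, y)) (ContinuousLinearMap.inr ℂ ℂ ℂ) q.2 :=
    hasFDerivAt_prodMk_right q.1 q.2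
  have h3 : HasFDerivAt (fun y => R (q.1, y)) (fderiv ℂ R q ∘L .inr ℂ ℂ ℂ) q.2 :=
    HasFDerivAt.comp (g := R) q.2 h1 h2
  have h4 := h.hasFDerivAt.unique h3
  rw [← h4]
  refine ⟨ContinuousLinearEquiv.smulLeft (Units.mk0 d hd), ?_⟩
  ext
  simp

/-- The implicit function theorem gives countable families. -/
theorem cap_implicit {ι : Type} [Countable ι] (R : ι → ℂ × ℂ → ℂ) (A : Set (ℂ × ℂ))
    (h : ∀ q ∈ A, ∃ i, ContDiffAt ℂ 1 (R i) q ∧ R i q = 0 ∧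
      ∃ d : ℂ, d ≠ 0 ∧ HasDerivAt (fun y => R i (q.1, y)) d q.2) : Cap A := by
  classical
  set 𝓑 := TopologicalSpace.countableBasis ℂ with h𝓑
  have hB : TopologicalSpace.IsTopologicalBasis 𝓑 := TopologicalSpace.isBasis_countableBasis ℂ
  have hBc : 𝓑.Countable := TopologicalSpace.countable_countableBasis ℂ
  haveI : Countable 𝓑 := hBc.to_subtype
  let f : ι × 𝓑 → ℂ → ℂ := fun p c =>
    if hy : ∃ y ∈ (p.2 : Set ℂ), R p.1 (c, y) = 0 then hy.choose else 0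
  let g : (ι × 𝓑) × 𝓑 → Set ℂ × (ℂ → ℂ) := fun p => ((p.2 : Set ℂ), f p.1)
  refine ⟨Set.range g ∩ {p | IsOpen p.1 ∧ DifferentiableOn ℂ p.2 p.1},
    (Set.countable_range g).mono Set.inter_subset_left, fun p hp => hp.2, ?_⟩
  intro q hq
  obtain ⟨i, hR, hR0, d, hd, hder⟩ := h q hq
  have hinv := isInvertible_of_hasDerivAt hR hd hder
  set ψ := hR.implicitFunction one_ne_zero hinv with hψ
  have h1 : ψ q.1 = q.2 := hR.implicitFunction_apply_self one_ne_zero hinv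
  have h2 : ∀ᶠ v in 𝓝 q, R i v = R i q ↔ ψ v.1 = v.2 :=
    hR.eventually_apply_eq_iff_implicitFunction one_ne_zero hinv
  have h3 : ContDiffAt ℂ 1 ψ q.1 := hR.contDiffAt_implicitFunction one_ne_zero hinv
  rw [hR0] at h2
  have hq' : q = (q.1, q.2) := rfl
  rw [hq', nhds_prod_eq, Filter.eventually_prod_iff] at h2
  obtain ⟨pa, hpa, pb, hpb, h4⟩ := h2
  obtain ⟨B', hB', hqB', hB'p⟩ := hB.mem_nhds_iff.1 hpb
  have h5 : ∀ᶠ c in 𝓝 q.1, DifferentiableAt ℂ ψ c := by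
    have := h3.eventually (by simp)
    filter_upwards [this] with c hc
    exact hc.differentiableAt one_ne_zero
  have h6 : ∀ᶠ c in 𝓝 q.1, ψ c ∈ B' := by
    have hcont : ContinuousAt ψ q.1 := h3.continuousAt
    apply hcont.eventually
    rw [h1]
    exact (hB.isOpen hB').mem_nhds hqB'
  obtain ⟨B, hBB, hqB, hBp⟩ := hB.mem_nhds_iff.1 (hpa.and (h5.and h6))
  have hfψ : ∀ c ∈ B, f (i, ⟨B', hB'⟩) c = ψ c := by
    intro c hc
    obtain ⟨hc1, hc2, hc3⟩ := hBp hc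
    have hex : ∃ y ∈ B', R i (c, y) = 0 := ⟨ψ c, hc3, (h4 hc1 (hB'p hc3)).2 rfl⟩
    have hch := hex.choose_spec
    have : f (i, ⟨B', hB'⟩) c = hex.choose := by
      simp only [f]
      rw [dif_pos hex]
    rw [this]
    exact ((h4 hc1 (hB'p hch.1)).1 hch.2).symm
  refine ⟨(B, f (i, ⟨B', hB'⟩)), ⟨⟨((i, ⟨B', hB'⟩), ⟨B, hBB⟩), rfl⟩, hB.isOpen hBB, ?_⟩, hqB, ?_⟩
  · intro c hc
    have : DifferentiableAt ℂ ψ c := (hBp hc).2.1
    have h7 : f (i, ⟨B', hB'⟩) =ᶠ[𝓝 c] ψ := by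
      filter_upwards [(hB.isOpen hBB).mem_nhds hc] with c' hc'
      exact hfψ c' hc'
    exact (this.congr_of_eventuallyEq h7).differentiableWithinAt
  · show f (i, ⟨B', hB'⟩) q.1 = q.2
    rw [hfψ q.1 hqB, h1]

end Pool.Agent.V11277
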