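import Pool.Agent.V11277.SZ

/-!
# An infinite Heisenberg group over the field with two elements

Its elements are the triples `(v, w, c)` with `v` a finitely supported sequence, `w` a sequence and
`c` a number; the double centralizers of its finite subsets are finite, and it is not a countable
union of discrete subspaces in the semi-Zariski topology.
-/

set_option autoImplicit false

namespace Pool.Agent.V11277.SZ

open TopologicalSpace Filter

/-- The field with two elements. -/
abbrev F2 : Type := ZMod 2

/-- The pairing of finitely supported sequences and sequences. -/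
noncomputable def B (v : ℕ →₀ F2) (w : ℕ → F2) : F2 := Finsupp.linearCombination F2 w v

theorem B_add_left (v v' : ℕ →₀ F2) (w : ℕ → F2) : B (v + v') w = B v w + B v' w := map_add _ _ _

theorem B_neg_left (v : ℕ →₀ F2) (w : ℕ → F2) : B (-v) w = -B v w := map_neg _ _

theorem B_smul_left (a : F2) (v : ℕ →₀ F2) (w : ℕ → F2) : B (a • v) w = a * B v w :=
  (map_smul _ _ _).trans (smul_eq_mul _ _)

theorem B_zero_left (w : ℕ → F2) : B 0 w = 0 := map_zero _

theorem B_eq (v : ℕ →₀ F2) (w : ℕ → F2) : B v w = v.sum fun i a => a * w i := rfl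

theorem B_add_right (v : ℕ →₀ F2) (w w' : ℕ → F2) : B v (w + w') = B v w + B v w' := by
  simp only [B_eq, Finsupp.sum, Pi.add_apply, mul_add, Finset.sum_add_distrib]

theorem B_smul_right (a : F2) (v : ℕ →₀ F2) (w : ℕ → F2) : B v (a • w) = a * B v w := by
  simp only [B_eq, Finsupp.sum, Pi.smul_apply, smul_eq_mul, Finset.mul_sum]
  exact Finset.sum_congr rfl fun i _ => by ring

theorem B_zero_right (v : ℕ →₀ F2) : B v 0 = 0 := by
  simp [B_eq, Finsupp.sum]

theorem B_neg_right (v : ℕ →₀ F2) (w : ℕ → F2) : B v (-w) = -B v w := by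
  simp [B_eq, Finsupp.sum]

theorem B_single_left (i : ℕ) (w : ℕ → F2) : B (Finsupp.single i 1) w = w i := by
  rw [B, Finsupp.linearCombination_single, one_smul]

theorem B_single_right (v : ℕ →₀ F2) (i : ℕ) : B v (Pi.single i 1) = v i := by
  classical
  rw [B_eq, Finsupp.sum]
  by_cases h : i ∈ v.support
  · rw [Finset.sum_eq_single_of_mem i h]
    · simp
    · intro j _ hj
      rw [Pi.single_eq_of_ne hj, mul_zero]
  · rw [Finset.sum_eq_zero]
    · rw [Finsupp.notMem_support_iff] at h
      exact h.symm
    · intro j hj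
      have : j ≠ i := fun h2 => h (h2 ▸ hj)
      rw [Pi.single_eq_of_ne this, mul_zero]

/-- The Heisenberg group. -/
@[ext] structure Heis : Type where
  /-- the finitely supported sequence -/
  v : ℕ →₀ F2
  /-- the sequence -/
  w : ℕ → F2
  /-- the central coordinate -/
  c : F2

namespace Heis

noncomputable instance : Mul Heis := ⟨fun x y => ⟨x.v + y.v, x.w + y.w, x.c + y.c + B x.v y.w⟩⟩
noncomputable instance : One Heis := ⟨⟨0, 0, 0⟩⟩
noncomputable instance : Inv Heis := ⟨fun x => ⟨-x.v, -x.w, -x.c + B x.v x.w⟩⟩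

theorem mul_v (x y : Heis) : (x * y).v = x.v + y.v := rfl
theorem mul_w (x y : Heis) : (x * y).w = x.w + y.w := rfl
theorem mul_c (x y : Heis) : (x * y).c = x.c + y.c + B x.v y.w := rfl

noncomputable instance : Group Heis :=
  Group.ofLeftAxioms
    (by
      intro x y u
      refine Heis.ext ?_ ?_ ?_
      · simp only [mul_v, add_assoc]
      · simp only [mul_w, add_assoc]
      · simp only [mul_c, mul_v, mul_w, B_add_left, B_add_right]
        ring)
    (by
      intro x
      refine Heis.ext ?_ ?_ ?_
      · rw [mul_v]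
        exact zero_add _
      · rw [mul_w]
        exact zero_add _
      · rw [mul_c]
        show 0 + x.c + B 0 x.w = x.c
        rw [B_zero_left, zero_add, add_zero])
    (by
      intro x
      refine Heis.ext ?_ ?_ ?_
      · rw [mul_v]
        exact neg_add_cancel _
      · rw [mul_w]
        exact neg_add_cancel _
      · rw [mul_c]
        show -x.c + B x.v x.w + x.c + B (-x.v) x.w = 0
        rw [B_neg_left]
        ring)

theorem comm_iff (x y : Heis) : x * y = y * x ↔ B x.v y.w = B y.v x.w := by
  constructor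
  · intro h
    have := congrArg Heis.c h
    rw [mul_c, mul_c] at this
    linear_combination this
  · intro h
    refine Heis.ext ?_ ?_ ?_
    · rw [mul_v, mul_v, add_comm]
    · rw [mul_w, mul_w, add_comm]
    · rw [mul_c, mul_c, h]
      ring

/-- The symplectic form. -/
noncomputable def Om : ((ℕ →₀ F2) × (ℕ → F2)) →ₗ[F2] ((ℕ →₀ F2) × (ℕ → F2)) →ₗ[F2] F2 :=
  LinearMap.mk₂ F2 (fun a b => B a.1 b.2 - B b.1 a.2)
    (by
      intro a a' b
      simp only [Prod.fst_add, Prod.snd_add, B_add_left, B_add_right]
      ring)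
    (by
      intro r a b
      simp only [Prod.smul_fst, Prod.smul_snd, B_smul_left, B_smul_right, smul_eq_mul]
      ring)
    (by
      intro a b b'
      simp only [Prod.fst_add, Prod.snd_add, B_add_left, B_add_right]
      ring)
    (by
      intro r a b
      simp only [Prod.smul_fst, Prod.smul_snd, B_smul_left, B_smul_right, smul_eq_mul]
      ring)

theorem Om_apply (a b : (ℕ →₀ F2) × (ℕ → F2)) : Om a b = B a.1 b.2 - B b.1 a.2 := rfl

theorem Om_injective : Function.Injective Om := by
  rw [injective_iff_map_eq_zero]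
  intro a ha
  have h : ∀ b : (ℕ →₀ F2) × (ℕ → F2), B a.1 b.2 - B b.1 a.2 = 0 := fun b => by
    rw [← Om_apply, ha]
    rfl
  refine Prod.ext ?_ ?_
  · ext i
    have := h (0, Pi.single i 1)
    simp only [B_zero_left, sub_zero, B_single_right] at this
    rw [this]
    rfl
  · ext i
    have := h (Finsupp.single i 1, 0)
    simp only [B_zero_right, zero_sub, B_single_left, neg_eq_zero] at this
    rw [this]
    rfl

/-- The vector part. -/
def ve (x : Heis) : (ℕ →₀ F2) × (ℕ → F2) := (x.v, x.w)

theorem comm_iff' (x y : Heis) : x * y = y * x ↔ Om (ve x) (ve y) = 0 := by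
  rw [comm_iff, Om_apply, sub_eq_zero]
  rfl

theorem dc_span (F : Set Heis) (hF : F.Finite) {x : Heis}
    (hx : x ∈ Set.centralizer (Set.centralizer F)) :
    Om (ve x) ∈ Submodule.span F2 ((fun f => Om (ve f)) '' F) := by
  have : Finite F := hF
  have h := mem_span_of_iInf_ker_le_ker (L := fun f : F => Om (ve f.1)) (K := Om (ve x)) (by
    intro y hy
    rw [Submodule.mem_iInf] at hy
    rw [LinearMap.mem_ker]
    have hyc : (⟨y.1, y.2, 0⟩ : Heis) ∈ Set.centralizer F := by
      intro m hm
      rw [comm_iff']
      exact hy ⟨m, hm⟩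
    have h2 := hx _ hyc
    have h3 : x * (⟨y.1, y.2, 0⟩ : Heis) = (⟨y.1, y.2, 0⟩ : Heis) * x := h2.symm
    rw [comm_iff'] at h3
    exact h3)
  have h2 : Set.range (fun f : F => Om (ve f.1)) = (fun f => Om (ve f)) '' F := by
    rw [Set.image_eq_range]
  rw [← h2]
  exact h

theorem ve_c_injective : Function.Injective fun x : Heis => (ve x, x.c) := by
  intro x y h
  have h1 : ve x = ve y := congrArg Prod.fst h
  have h2 : x.c = y.c := congrArg Prod.snd h
  exact Heis.ext (congrArg Prod.fst h1) (congrArg Prod.snd h1) h2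

theorem fdc : FiniteDoubleCentralizers Heis := by
  intro F hF
  have hfin : ((Submodule.span F2 ((fun f => Om (ve f)) '' F) :
      Submodule F2 (((ℕ →₀ F2) × (ℕ → F2)) →ₗ[F2] F2)) :
      Set (((ℕ →₀ F2) × (ℕ → F2)) →ₗ[F2] F2)).Finite := by
    have : Module.Finite F2 (Submodule.span F2 ((fun f => Om (ve f)) '' F)) :=
      Module.Finite.span_of_finite F2 (hF.image _)
    have h3 : Finite (Submodule.span F2 ((fun f => Om (ve f)) '' F)) :=
      Module.finite_of_finite F2
    exact h3
  have h4 : (Set.centralizer (Set.centralizer F)) ⊆ (fun x : Heis => (ve x, x.c)) ⁻¹'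
      ((Om ⁻¹' (Submodule.span F2 ((fun f => Om (ve f)) '' F) : Set _)) ×ˢ Set.univ) :=
    fun x hx => ⟨dc_span F hF hx, Set.mem_univ _⟩
  refine Set.Finite.subset (Set.Finite.preimage ve_c_injective.injOn ?_) h4
  exact (hfin.preimage Om_injective.injOn).prod Set.finite_univ

/-- The double centralizers of single elements have at most four elements. -/
theorem dc_le (f : Heis) : (Set.centralizer (Set.centralizer {f})).encard ≤ 4 := by
  have hsub : Set.centralizer (Set.centralizer {f}) ⊆
      ({⟨0, 0, 0⟩, ⟨0, 0, 1⟩, ⟨f.v, f.w, 0⟩, ⟨f.v, f.w, 1⟩} : Set Heis) := by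
    intro x hx
    have h := dc_span {f} (Set.finite_singleton f) hx
    rw [Set.image_singleton, Submodule.mem_span_singleton] at h
    obtain ⟨a, ha⟩ := h
    rw [← map_smul] at ha
    have h1 : a • ve f = ve x := Om_injective ha
    have hv : x.v = a • f.v := (congrArg Prod.fst h1).symm
    have hw : x.w = a • f.w := (congrArg Prod.snd h1).symm
    have hcases : ∀ b : F2, b = 0 ∨ b = 1 := by decide
    rcases hcases a with rfl | rfl <;> rcases hcases x.c with hc | hc
    · left
      exact Heis.ext (by rw [hv, zero_smul]) (by rw [hw, zero_smul]) hc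
    · right; left
      exact Heis.ext (by rw [hv, zero_smul]) (by rw [hw, zero_smul]) hc
    · right; right; left
      exact Heis.ext (by rw [hv, one_smul]) (by rw [hw, one_smul]) hc
    · right; right; right
      exact Heis.ext (by rw [hv, one_smul]) (by rw [hw, one_smul]) hc
  refine (Set.encard_le_encard hsub).trans ?_
  refine (Set.encard_insert_le _ _).trans ?_
  refine (add_le_add_left (Set.encard_insert_le _ _) _).trans ?_
  refine (add_le_add_left (add_le_add_left (Set.encard_insert_le _ _) _) _).trans ?_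
  rw [Set.encard_singleton]
  norm_num

/-- The group element of an element of the semigroup with an external identity. -/
noncomputable def pi (a : WithOne Heis) : Heis := WithOne.lift (MulHom.id Heis) a

theorem prod_eq (a b : WithOne Heis) (x : Heis) :
    a * (x : WithOne Heis) * b = ((pi a * x * pi b : Heis) : WithOne Heis) := by
  rcases withOne_cases a with rfl | ⟨a, rfl⟩ <;> rcases withOne_cases b with rfl | ⟨b, rfl⟩ <;>
    simp [pi]

/-- The slice. -/
def M : Set Heis := {x | x.v = 0}

/-- Open sets contain almost all points of the slice which are close to a given point. -/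
theorem open_slice {U : Set Heis} (hU : GenerateOpen
    ({U | ∃ a b c : WithOne Heis, U = {x : Heis | a * (x : WithOne Heis) * b ≠ c}} ∪
    {U | ∃ a b c d : WithOne Heis, U = {x : Heis | a * (x : WithOne Heis) * b ≠
      c * (x : WithOne Heis) * d}}) U) {y : Heis} (hyM : y ∈ M) (hy : y ∈ U) :
    ∃ (V : Finset (ℕ →₀ F2)) (T : Set Heis), T.Finite ∧
      ∀ x ∈ M, (∀ v ∈ V, B v x.w = B v y.w) → x ∉ T → x ∈ U := by
  classical
  induction hU with
  | basic s hs =>
    rcases hs with ⟨a, b, c, rfl⟩ | ⟨a, b, c, d, rfl⟩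
    · refine ⟨∅, {x | a * (x : WithOne Heis) * b = c}, ?_, fun x _ _ hx => hx⟩
      refine Set.Subsingleton.finite ?_
      intro x hx x' hx'
      have h1 : a * (x : WithOne Heis) * b = c := hx
      have h2 : a * (x' : WithOne Heis) * b = c := hx'
      rw [← h2, prod_eq, prod_eq] at h1
      have h3 := WithOne.coe_inj.1 h1
      exact mul_left_cancel (mul_right_cancel h3)
    · refine ⟨{(pi a).v, (pi c).v}, ∅, Set.finite_empty, fun x hx hV _ => ?_⟩
      intro he
      apply hy
      rw [prod_eq, prod_eq] at he ⊢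
      have h3 := WithOne.coe_inj.1 he
      rw [WithOne.coe_inj]
      have hva := hV _ (Finset.mem_insert_self _ _)
      have hvc := hV _ (Finset.mem_insert_of_mem (Finset.mem_singleton_self _))
      have hx0 : x.v = 0 := hx
      have hy0 : y.v = 0 := hyM
      have e1 := congrArg Heis.v h3
      have e2 := congrArg Heis.w h3
      have e3 := congrArg Heis.c h3
      simp only [mul_v, mul_w, mul_c, hx0, add_zero] at e1 e2 e3
      refine Heis.ext ?_ ?_ ?_
      · simp only [mul_v, hy0, add_zero]
        exact e1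
      · simp only [mul_w]
        rw [add_right_comm, add_right_comm (pi c).w]
        rw [add_right_comm, add_right_comm (pi c).w] at e2
        rw [add_right_cancel e2]
      · simp only [mul_v, mul_c, hy0, add_zero]
        rw [hva, hvc] at e3
        linear_combination e3
  | univ => exact ⟨∅, ∅, Set.finite_empty, fun x _ _ _ => Set.mem_univ _⟩
  | inter s t _ _ ih1 ih2 =>
    obtain ⟨V1, T1, hT1, h1⟩ := ih1 hy.1
    obtain ⟨V2, T2, hT2, h2⟩ := ih2 hy.2
    refine ⟨V1 ∪ V2, T1 ∪ T2, hT1.union hT2, fun x hx hV hT => ⟨?_, ?_⟩⟩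
    · exact h1 x hx (fun v hv => hV v (Finset.mem_union_left _ hv)) fun h => hT (Or.inl h)
    · exact h2 x hx (fun v hv => hV v (Finset.mem_union_right _ hv)) fun h => hT (Or.inr h)
  | sUnion S _ ih =>
    obtain ⟨s, hs, hys⟩ := hy
    obtain ⟨V, T, hT, h⟩ := ih s hs hys
    exact ⟨V, T, hT, fun x hx hV hxT => ⟨s, hs, h x hx hV hxT⟩⟩

/-- The slice meets discrete sets in countable sets. -/
theorem countable_discrete {D : Set Heis}
    (hD : @DiscreteTopology D (TopologicalSpace.induced Subtype.val (semiZariski Heis))) :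
    (D ∩ M).Countable := by
  have hch : ∀ y : (D ∩ M : Set Heis), ∃ (V : Finset (ℕ →₀ F2)) (T : Set Heis), T.Finite ∧
      ∀ x ∈ D ∩ M, (∀ v ∈ V, B v x.w = B v y.1.w) → x ∈ T := by
    rintro ⟨y, hyD, hyM⟩
    have h1 : @IsOpen D (TopologicalSpace.induced Subtype.val (semiZariski Heis)) {⟨y, hyD⟩} := by
      rw [@discreteTopology_iff_forall_isOpen D
        (TopologicalSpace.induced Subtype.val (semiZariski Heis))] at hD
      exact hD _
    obtain ⟨U, hU, hUD⟩ := h1
    have hyU : y ∈ U := by
      have : (⟨y, hyD⟩ : D) ∈ (Subtype.val ⁻¹' U : Set D) := by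
        rw [hUD]
        rfl
      exact this
    obtain ⟨V, T, hT, h⟩ := open_slice hU hyM hyU
    refine ⟨V, insert y T, hT.insert y, fun x hx hV => ?_⟩
    by_cases hxT : x ∈ T
    · exact Or.inr hxT
    · left
      have h2 : x ∈ U := h x hx.2 hV hxT
      have h3 : (⟨x, hx.1⟩ : D) ∈ (Subtype.val ⁻¹' U : Set D) := h2
      rw [hUD] at h3
      exact congrArg Subtype.val h3
  choose V T hT h using hch
  -- a countable code of the points
  let code : (D ∩ M : Set Heis) → Σ V : Finset (ℕ →₀ F2), (V → F2) :=
    fun y => ⟨V y, fun v => B v.1 y.1.w⟩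
  have hfib : ∀ t, (code ⁻¹' {t}).Countable := by
    intro t
    by_cases hne : (code ⁻¹' {t}).Nonempty
    · obtain ⟨y, hy⟩ := hne
      have hsub : (fun x : (D ∩ M : Set Heis) => x.1) '' (code ⁻¹' {t}) ⊆ T y := by
        rintro _ ⟨x, hx, rfl⟩
        refine h y x.1 x.2 fun v hv => ?_
        have hxy : code x = code y := hx.trans hy.symm
        have key : ∀ p q : Σ V : Finset (ℕ →₀ F2), (V → F2), p = q → ∀ (hp : v ∈ p.1)
            (hq : v ∈ q.1), p.2 ⟨v, hp⟩ = q.2 ⟨v, hq⟩ := by
          rintro p q rfl hp hq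
          rfl
        have hv2 : v ∈ (code x).1 := by
          rw [hxy]
          exact hv
        exact key _ _ hxy hv2 hv
      exact (Set.Finite.of_finite_image ((hT y).subset hsub) Subtype.val_injective.injOn).countable
    · rw [Set.not_nonempty_iff_eq_empty] at hne
      rw [hne]
      exact Set.countable_empty
  have huniv : (Set.univ : Set (D ∩ M : Set Heis)).Countable := by
    have : (Set.univ : Set (D ∩ M : Set Heis)) = ⋃ t, code ⁻¹' {t} := by
      ext y
      simp
    rw [this]
    exact Set.countable_iUnion hfib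
  rw [← Set.countable_coe_iff]
  exact Set.countable_univ_iff.1 huniv

/-- The group is not sigma-discrete in the semi-Zariski topology. -/
theorem not_sigmaDiscrete : ¬ SigmaDiscreteSet Heis Set.univ := by
  rintro ⟨D, hD, hdisc⟩
  have h1 : (⋃ n, (D n ∩ M)).Countable := Set.countable_iUnion fun n => countable_discrete (hdisc n)
  rw [← Set.iUnion_inter, hD, Set.univ_inter] at h1
  have h2 : (Set.range fun w : ℕ → F2 => (⟨0, w, 0⟩ : Heis)).Countable := by
    refine h1.mono ?_
    rintro _ ⟨w, rfl⟩
    rfl
  have h3 : Function.Injective fun w : ℕ → F2 => (⟨0, w, 0⟩ : Heis) := by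
    intro w w' h
    exact congrArg Heis.w h
  have h4 : Countable (ℕ → F2) := by
    have := (Set.countable_coe_iff.2 h2)
    exact (Equiv.ofInjective _ h3).countable_iff.2 this
  obtain ⟨φ, hφ⟩ := h4.exists_injective_nat
  classical
  refine Function.cantor_injective (fun s : Set ℕ => φ (fun n => if n ∈ s then 1 else 0)) ?_
  intro s t hst
  have h5 := hφ hst
  ext n
  have h6 := congrFun h5 n
  by_cases h7 : n ∈ s <;> by_cases h8 : n ∈ t <;> simp_all

end Heis

end Pool.Agent.V11277.SZ
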