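import Mathlib

/-!
# Determinants of systems of equations `x_i = 1`, `x_i + x_j = x_k`

The coefficient matrices are sums of network matrices, so their determinants are at most `2 ^ m`,
where `m` is the number of rows which are not themselves rows of a network matrix.
-/

set_option autoImplicit false

namespace Pool.Agent.V11277.Net

open Matrix

variable {n : ℕ}

/-- The unit vector of an index, and the zero vector for `none`. -/
def u (s : Option (Fin n)) : Fin n → ℤ := fun k => if s = some k then 1 else 0

/-- Differences of two vectors `u s`. -/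
def IsV (r : Fin n → ℤ) : Prop := ∃ s t : Option (Fin n), r = u s - u t

/-- Sums of two differences. -/
def IsW (r : Fin n → ℤ) : Prop := ∃ p q : Fin n → ℤ, IsV p ∧ IsV q ∧ r = p + q

theorem u_comp (s : Option (Fin (n + 1))) (k : Fin (n + 1)) :
    ∃ s' : Option (Fin n), (fun j => u s (k.succAbove j)) = u s' := by
  rcases s with _ | l
  · exact ⟨none, rfl⟩
  · by_cases h : l = k
    · refine ⟨none, funext fun j => ?_⟩
      have : (some l : Option (Fin (n + 1))) ≠ some (k.succAbove j) := by
        rw [h]
        intro h2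
        exact Fin.succAbove_ne k j (Option.some_injective _ h2).symm
      simp [u, this]
    · obtain ⟨l', rfl⟩ := Fin.exists_succAbove_eq h
      refine ⟨some l', funext fun j => ?_⟩
      have : (some (k.succAbove l') = some (k.succAbove j)) ↔ (some l' = some j) := by
        rw [Option.some_inj, Option.some_inj]
        exact Fin.succAbove_right_inj
      simp only [u, this]

theorem IsV.comp {r : Fin (n + 1) → ℤ} (h : IsV r) (k : Fin (n + 1)) :
    IsV fun j => r (k.succAbove j) := by
  obtain ⟨s, t, rfl⟩ := h
  obtain ⟨s', hs⟩ := u_comp s k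
  obtain ⟨t', ht⟩ := u_comp t k
  refine ⟨s', t', ?_⟩
  rw [← hs, ← ht]
  rfl

theorem sum_u (l : Fin n) : ∑ k, u (some l) k = 1 := by
  simp [u]

/-- The determinant of a network matrix has absolute value at most one. -/
theorem abs_det_le_one : ∀ {n : ℕ} (M : Matrix (Fin n) (Fin n) ℤ), (∀ i, IsV (M i)) →
    |M.det| ≤ 1 := by
  intro n
  induction n with
  | zero => intro M _; simp
  | succ n ih =>
    intro M h
    by_cases hB : ∀ i, ∑ k, M i k = 0
    · have : M.det = 0 := by
        rw [← Matrix.exists_mulVec_eq_zero_iff]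
        refine ⟨fun _ => 1, fun h0 => one_ne_zero (congrFun h0 0), funext fun i => ?_⟩
        rw [Matrix.mulVec, dotProduct]
        simp only [mul_one, Pi.zero_apply]
        exact hB i
      rw [this]
      simp
    · push Not at hB
      obtain ⟨i, hi⟩ := hB
      -- the row `i` is a unit vector up to the sign
      obtain ⟨k, hk1, hk⟩ : ∃ k, |M i k| ≤ 1 ∧ ∀ j, j ≠ k → M i j = 0 := by
        obtain ⟨s, t, hst⟩ := h i
        rcases s with _ | s
        · rcases t with _ | t
          · exfalso
            apply hi
            rw [hst]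
            simp
          · refine ⟨t, ?_, fun j hj => ?_⟩
            · rw [hst]
              simp [u]
            · rw [hst]
              have : t ≠ j := fun h => hj h.symm
              simp [u, this]
        · rcases t with _ | t
          · refine ⟨s, ?_, fun j hj => ?_⟩
            · rw [hst]
              simp [u]
            · rw [hst]
              have : s ≠ j := fun h => hj h.symm
              simp [u, this]
          · exfalso
            apply hi
            rw [hst]
            simp only [Pi.sub_apply, Finset.sum_sub_distrib]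
            rw [sum_u, sum_u, sub_self]
      rw [Matrix.det_succ_row M i, Finset.sum_eq_single k]
      · rw [abs_mul, abs_mul, abs_pow, abs_neg, abs_one, one_pow, one_mul]
        refine mul_le_one₀ hk1 (abs_nonneg _) (ih _ fun i' => ?_)
        exact (h (i.succAbove i')).comp k
      · intro j _ hj
        rw [hk j hj]
        ring
      · intro hk
        exact absurd (Finset.mem_univ k) hk

theorem abs_det_le (T : Finset (Fin n)) : ∀ M : Matrix (Fin n) (Fin n) ℤ, (∀ i ∈ T, IsW (M i)) →
    (∀ i, i ∉ T → IsV (M i)) → |M.det| ≤ 2 ^ T.card := by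
  induction T using Finset.induction_on with
  | empty =>
    intro M _ h
    simpa using abs_det_le_one M fun i => h i (Finset.notMem_empty i)
  | insert a T ha ih =>
    intro M hW hV
    obtain ⟨p, q, hp, hq, hpq⟩ := hW a (Finset.mem_insert_self a T)
    have h1 : M = M.updateRow a (p + q) := by
      rw [← hpq, Matrix.updateRow_eq_self]
    have key : ∀ r : Fin n → ℤ, IsV r → |(M.updateRow a r).det| ≤ 2 ^ T.card := by
      intro r hr
      refine ih _ ?_ ?_
      · intro i hi
        have hia : i ≠ a := fun h => ha (h ▸ hi)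
        rw [Matrix.updateRow_ne hia]
        exact hW i (Finset.mem_insert_of_mem hi)
      · intro i hi
        by_cases hia : i = a
        · rw [hia, Matrix.updateRow_self]
          exact hr
        · rw [Matrix.updateRow_ne hia]
          exact hV i fun h => (Finset.mem_insert.1 h).elim hia hi
    rw [h1, Matrix.det_updateRow_add, Finset.card_insert_of_notMem ha, pow_succ]
    calc |(M.updateRow a p).det + (M.updateRow a q).det|
        ≤ |(M.updateRow a p).det| + |(M.updateRow a q).det| := abs_add_le _ _
      _ ≤ 2 ^ T.card + 2 ^ T.card := add_le_add (key p hp) (key q hq)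
      _ = 2 ^ T.card * 2 := by ring

theorem isV_some (j : Fin n) : IsV (u (some j)) := ⟨some j, none, by
  ext k
  simp [u]⟩

theorem u_some_eq (j : Fin n) : u (some j) = Pi.single j 1 := by
  ext k
  by_cases h : j = k
  · rw [h, Pi.single_eq_same]
    simp [u]
  · rw [Pi.single_eq_of_ne (fun h2 => h h2.symm)]
    simp [u, h]

/-- Cramer's rule for a system with one inhomogeneous equation. -/
theorem cramer_bound {K : Type*} [Field K] [CharZero K] (M : Matrix (Fin n) (Fin n) ℤ)
    (a c : Fin n) (hc : M a = u (some c)) (hW : ∀ i, i ≠ a → IsW (M i)) (hdet : M.det ≠ 0)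
    (x : Fin n → K) (hx : ∀ i, ∑ j, (M i j : K) * x j = if i = a then 1 else 0) (j : Fin n) :
    ∃ D N : ℤ, D ≠ 0 ∧ |D| ≤ 2 ^ (n - 1) ∧ |N| ≤ 2 ^ (n - 1) ∧ (D : K) * x j = N := by
  have hb : ∀ l : Fin n, |(M.updateRow a (Pi.single l 1)).det| ≤ 2 ^ (n - 1) := by
    intro l
    have h1 : (Finset.univ.erase a).card = n - 1 := by
      rw [Finset.card_erase_of_mem (Finset.mem_univ a), Finset.card_univ, Fintype.card_fin]
    rw [← h1]
    refine abs_det_le _ _ ?_ ?_
    · intro i hi
      have hia := Finset.ne_of_mem_erase hi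
      rw [Matrix.updateRow_ne hia]
      exact hW i hia
    · intro i hi
      have hia : i = a := by
        by_contra h
        exact hi (Finset.mem_erase.2 ⟨h, Finset.mem_univ i⟩)
      rw [hia, Matrix.updateRow_self, ← u_some_eq]
      exact isV_some l
  refine ⟨M.det, (M.updateRow a (Pi.single j 1)).det, hdet, ?_, hb j, ?_⟩
  · have h2 : M = M.updateRow a (Pi.single c 1) := by
      rw [← u_some_eq, ← hc, Matrix.updateRow_eq_self]
    calc |M.det| = |(M.updateRow a (Pi.single c 1)).det| := by rw [← h2]
      _ ≤ _ := hb c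
  · have h3 : ∀ k : Fin n, ∑ i, M.adjugate j i * M i k = if j = k then M.det else 0 := by
      intro k
      have := congrFun (congrFun (Matrix.adjugate_mul M) j) k
      rw [Matrix.mul_apply] at this
      rw [this, Matrix.smul_apply, Matrix.one_apply, smul_eq_mul, mul_ite, mul_one, mul_zero]
    have h4 : (M.det : K) * x j = ∑ k, (∑ i, (M.adjugate j i : K) * (M i k : K)) * x k := by
      have : ∀ k : Fin n, (∑ i, (M.adjugate j i : K) * (M i k : K)) =
          if j = k then (M.det : K) else 0 := by
        intro k
        have h5 : ((∑ i, M.adjugate j i * M i k : ℤ) : K) =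
            ((if j = k then M.det else 0 : ℤ) : K) := by rw [h3 k]
        rw [Int.cast_sum] at h5
        simp only [Int.cast_mul] at h5
        rw [h5]
        split_ifs
        · rfl
        · exact Int.cast_zero
      rw [Finset.sum_congr rfl fun k _ => by rw [this k]]
      simp
    rw [h4]
    have h6 : ∑ k, (∑ i, (M.adjugate j i : K) * (M i k : K)) * x k =
        ∑ i, (M.adjugate j i : K) * ∑ k, (M i k : K) * x k := by
      simp_rw [Finset.sum_mul, Finset.mul_sum]
      rw [Finset.sum_comm]
      refine Finset.sum_congr rfl fun i _ => Finset.sum_congr rfl fun k _ => by ring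
    rw [h6]
    have h7 : ∑ i, (M.adjugate j i : K) * ∑ k, (M i k : K) * x k = (M.adjugate j a : K) := by
      rw [Finset.sum_congr rfl fun i _ => by rw [hx i]]
      simp
    rw [h7, Matrix.adjugate_apply]

/-- The equations `x_i = 1` and `x_i + x_j = x_k`. -/
inductive Eqn (n : ℕ) : Type
  | one (i : Fin n) : Eqn n
  | add (i j k : Fin n) : Eqn n

/-- The tuple `x` satisfies the equation. -/
def Eqn.Holds {K : Type*} [Field K] (x : Fin n → K) : Eqn n → Prop
  | .one i => x i = 1
  | .add i j k => x i + x j = x k

/-- The homogeneous form of an equation, `x_c` being used instead of `1`. -/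
def hrow (c : Fin n) : Eqn n → (Fin n → ℤ)
  | .one i => u (some i) - u (some c)
  | .add i j k => (u (some i) - u (some k)) + (u (some j) - u none)

theorem isW_hrow (c : Fin n) (e : Eqn n) : IsW (hrow c e) := by
  rcases e with i | ⟨i, j, k⟩
  · refine ⟨_, 0, ⟨some i, some c, rfl⟩, ⟨none, none, ?_⟩, ?_⟩
    · rw [sub_self]
    · rw [add_zero]
      rfl
  · exact ⟨_, _, ⟨_, _, rfl⟩, ⟨_, _, rfl⟩, rfl⟩

theorem sum_u_mul {K : Type*} [Field K] (l : Fin n) (x : Fin n → K) :
    ∑ k, ((u (some l) k : ℤ) : K) * x k = x l := by
  rw [u_some_eq, Finset.sum_eq_single l]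
  · simp
  · intro k _ hk
    rw [Pi.single_eq_of_ne hk]
    simp
  · intro h
    exact absurd (Finset.mem_univ l) h

theorem sum_hrow {K : Type*} [Field K] (c : Fin n) (e : Eqn n) (x : Fin n → K) :
    ∑ k, ((hrow c e k : ℤ) : K) * x k = match e with
      | .one i => x i - x c
      | .add i j k => x i + x j - x k := by
  rcases e with i | ⟨i, j, k⟩
  · simp only [hrow, Pi.sub_apply, Int.cast_sub, sub_mul, Finset.sum_sub_distrib, sum_u_mul]
  · have h0 : ∀ l : Fin n, (u none l : ℤ) = 0 := fun l => by simp [u]
    simp only [hrow, Pi.add_apply, Pi.sub_apply, h0, sub_zero, Int.cast_add, Int.cast_sub, add_mul,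
      sub_mul, Finset.sum_add_distrib, Finset.sum_sub_distrib, sum_u_mul]
    ring

/-- The unique solution of a system of equations is rational with small numerators and
denominators. -/
theorem unique_solution {K : Type*} [Field K] [CharZero K] (S : Set (Eqn n))
    (x : Fin n → K) (hx : ∀ e ∈ S, e.Holds x)
    (huniq : ∀ y : Fin n → K, (∀ e ∈ S, e.Holds y) → y = x) (j : Fin n) :
    ∃ r : ℚ, (r : K) = x j ∧ |r.num| ≤ 2 ^ (n - 1) ∧ r.den ≤ 2 ^ (n - 1) := by
  have hpos : (1 : ℕ) ≤ 2 ^ (n - 1) := Nat.one_le_two_pow
  by_cases hone : ∃ c, Eqn.one c ∈ S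
  swap
  · -- there is no inhomogeneous equation
    have h0 : (0 : Fin n → K) = x := by
      refine huniq 0 fun e he => ?_
      rcases e with i | ⟨i, j, k⟩
      · exact absurd ⟨i, he⟩ hone
      · show (0 : K) + 0 = 0
        rw [add_zero]
    refine ⟨0, ?_, ?_, ?_⟩
    · rw [← h0]
      simp
    · simp
    · simpa using hpos
  obtain ⟨c, hc⟩ := hone
  have hxc : x c = 1 := hx _ hc
  -- the rows
  let row : (Fin n → ℤ) → (Fin n → K) := fun r k => (r k : K)
  let uc : Fin n → K := row (u (some c))
  let H : Set (Fin n → K) := (fun e => row (hrow c e)) '' S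
  have hspan : Submodule.span K (insert uc H) = ⊤ := by
    by_contra hne
    obtain ⟨f, hf0, hf⟩ := Submodule.exists_le_ker_of_lt_top _ (lt_top_iff_ne_top.2 hne)
    let y : Fin n → K := fun k => f (Pi.single k 1)
    have hfy : ∀ v : Fin n → K, f v = ∑ k, v k * y k := by
      intro v
      rw [LinearMap.pi_apply_eq_sum_univ f v]
      refine Finset.sum_congr rfl fun k _ => ?_
      rw [smul_eq_mul]
      congr 2
      funext l
      rw [Pi.single_apply]
      by_cases h : k = l
      · rw [if_pos h, if_pos h.symm]
      · rw [if_neg h, if_neg fun h2 => h h2.symm]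
    have hyc : y c = 0 := by
      have h1 : f uc = 0 := hf (Submodule.subset_span (Set.mem_insert _ _))
      rw [hfy] at h1
      rw [← h1]
      exact (sum_u_mul c y).symm
    have hyH : ∀ e ∈ S, ∑ k, ((hrow c e k : ℤ) : K) * y k = 0 := by
      intro e he
      have h1 : f (row (hrow c e)) = 0 :=
        hf (Submodule.subset_span (Set.mem_insert_of_mem _ ⟨e, he, rfl⟩))
      rw [hfy] at h1
      exact h1
    have hsol : ∀ e ∈ S, e.Holds (x + y) := by
      intro e he
      have h1 := hyH e he
      rw [sum_hrow] at h1
      have h2 := hx e he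
      rcases e with i | ⟨i, j, k⟩
      · show x i + y i = 1
        simp only at h1
        rw [hyc, sub_zero] at h1
        rw [h1, add_zero]
        exact h2
      · show x i + y i + (x j + y j) = x k + y k
        have h3 : x i + x j = x k := h2
        simp only at h1
        linear_combination h1 + h3
    have hy0 : y = 0 := by
      have := huniq _ hsol
      simpa using this
    apply hf0
    ext k
    simp only [LinearMap.coe_comp, LinearMap.coe_single, Function.comp_apply, LinearMap.zero_comp,
      LinearMap.zero_apply]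
    exact congrFun hy0 k
  -- choose a basis among the rows which contains `uc`
  have huc0 : uc ≠ 0 := by
    intro h
    have h1 := congrFun h c
    have h2 : (((u (some c) c : ℤ)) : K) = 1 := by simp [u]
    rw [show uc c = ((u (some c) c : ℤ) : K) from rfl, h2] at h1
    exact one_ne_zero h1
  obtain ⟨b, hbt, hub, htb, hli⟩ := exists_linearIndepOn_id_extension
    (K := K) (s := {uc}) (t := insert uc H)
    (LinearIndepOn.singleton (v := (id : (Fin n → K) → (Fin n → K))) huc0)
    (Set.singleton_subset_iff.2 (Set.mem_insert _ _))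
  have hucb : uc ∈ b := hub (Set.mem_singleton _)
  have hspanb : ⊤ ≤ Submodule.span K (Set.range ((↑) : b → (Fin n → K))) := by
    rw [Subtype.range_coe, ← hspan, Submodule.span_le]
    exact htb
  let B : Module.Basis b K (Fin n → K) := Module.Basis.mk hli hspanb
  let σ : b ≃ Fin n := B.indexEquiv (Pi.basisFun K (Fin n))
  set a : Fin n := σ ⟨uc, hucb⟩ with ha
  have hch : ∀ i : Fin n, ∃ r : Fin n → ℤ, row r = (σ.symm i : Fin n → K) ∧
      (i = a → r = u (some c)) ∧ (i ≠ a → ∃ e ∈ S, r = hrow c e) := by
    intro i
    by_cases hi : i = a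
    · refine ⟨u (some c), ?_, fun _ => rfl, fun h => absurd hi h⟩
      rw [hi, ha, Equiv.symm_apply_apply]
    · rcases hbt (σ.symm i).2 with h | ⟨e, he, h⟩
      · exfalso
        apply hi
        rw [ha]
        have : σ.symm i = ⟨uc, hucb⟩ := Subtype.ext h
        rw [← this, Equiv.apply_symm_apply]
      · exact ⟨hrow c e, h, fun h2 => absurd h2 hi, fun _ => ⟨e, he, rfl⟩⟩
  choose r hr1 hr2 hr3 using hch
  have hli2 : LinearIndependent K (fun i => row (r i)) := by
    have h1 : (fun i => row (r i)) = ((↑) : b → (Fin n → K)) ∘ σ.symm := funext hr1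
    rw [h1]
    exact hli.comp _ σ.symm.injective
  have hdet : (Matrix.of r).det ≠ 0 := by
    intro h0
    have h1 : IsUnit ((Matrix.of r).map (Int.cast : ℤ → K)) :=
      Matrix.linearIndependent_rows_iff_isUnit.1 hli2
    rw [Matrix.isUnit_iff_isUnit_det] at h1
    have h2 : ((Matrix.of r).map (Int.cast : ℤ → K)).det = ((Matrix.of r).det : K) :=
      ((Int.castRingHom K).map_det (Matrix.of r)).symm
    rw [h2, h0, Int.cast_zero] at h1
    exact not_isUnit_zero h1
  obtain ⟨D, N, hD0, hD, hN, hDN⟩ := cramer_bound (Matrix.of r) a c (hr2 a rfl)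
    (fun i hi => by
      obtain ⟨e, _, he⟩ := hr3 i hi
      show IsW (r i)
      rw [he]
      exact isW_hrow c e) hdet x (by
    intro i
    show ∑ j, ((r i j : ℤ) : K) * x j = _
    by_cases hi : i = a
    · rw [if_pos hi, hr2 i hi, sum_u_mul, hxc]
    · rw [if_neg hi]
      obtain ⟨e, heS, he⟩ := hr3 i hi
      rw [he, sum_hrow]
      have h2 := hx e heS
      rcases e with i | ⟨i, j, k⟩
      · have h3 : x i = 1 := h2
        simp only
        rw [h3, hxc, sub_self]
      · have h3 : x i + x j = x k := h2
        simp only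
        rw [h3, sub_self]) j
  have hDK : (D : K) ≠ 0 := Int.cast_ne_zero.2 hD0
  refine ⟨(N : ℚ) / D, ?_, ?_, ?_⟩
  · rw [Rat.cast_div, Rat.cast_intCast, Rat.cast_intCast, div_eq_iff hDK, mul_comm, hDN]
  · have h1 : ((N : ℚ) / D).num ∣ N := by
      rw [← Rat.divInt_eq_div]
      exact Rat.num_dvd N hD0
    by_cases hN0 : N = 0
    · rw [hN0]
      simp
    · exact (Int.le_of_dvd (abs_pos.2 hN0) ((abs_dvd_abs _ _).2 h1)).trans hN
  · have h1 : (((N : ℚ) / D).den : ℤ) ∣ D := by
      rw [← Rat.divInt_eq_div]
      exact Rat.den_dvd N D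
    have h2 : (((N : ℚ) / D).den : ℤ) ≤ |D| := by
      refine Int.le_of_dvd (abs_pos.2 hD0) ?_
      rwa [dvd_abs]
    have h3 : (((N : ℚ) / D).den : ℤ) ≤ ((2 ^ (n - 1) : ℕ) : ℤ) := by
      push_cast
      exact h2.trans hD
    exact_mod_cast h3

end Pool.Agent.V11277.Net
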