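import Mathlib

/-!
# The semi-Zariski topology and nilpotent semigroups of class two
-/

set_option autoImplicit false

namespace Pool.Agent.V11277.SZ

open TopologicalSpace Filter

/-- The semi-Zariski topology on a semigroup `S`. `WithOne S` is `S` with an external identity. -/
abbrev semiZariski (S : Type) [Semigroup S] : TopologicalSpace S :=
  generateFrom ({U | ∃ a b c : WithOne S, U = {x : S | a * (x : WithOne S) * b ≠ c}} ∪
    {U | ∃ a b c d : WithOne S, U = {x : S | a * (x : WithOne S) * b ≠ c * (x : WithOne S) * d}})

/-- `S` has finite double centralizers. -/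
def FiniteDoubleCentralizers (S : Type) [Semigroup S] : Prop :=
  ∀ F : Set S, F.Finite → (Set.centralizer (Set.centralizer F)).Finite

/-- The subset `M` of `S` is a countable union of subsets which are discrete in the topology induced
by the semi-Zariski topology. -/
def SigmaDiscreteSet (S : Type) [Semigroup S] (M : Set S) : Prop :=
  ∃ D : ℕ → Set S, (⋃ n, D n) = M ∧
    ∀ n, @DiscreteTopology (D n) (TopologicalSpace.induced Subtype.val (semiZariski S))

/-- The set of the elements `f` of `S` with `|Cent(Cent(f))| ≤ n`. -/
def smallDC (S : Type) [Semigroup S] (n : ℕ) : Set S :=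
  {f | (Set.centralizer (Set.centralizer {f})).encard ≤ n}

theorem withOne_cases {S : Type} (p : WithOne S) : p = 1 ∨ ∃ a : S, p = (a : WithOne S) := by
  cases p with
  | one => exact Or.inl rfl
  | coe a => exact Or.inr ⟨a, rfl⟩

/-- The nilpotent semigroup of class two given by a relation `R`: the product of two elements `a`,
`b` of `A` is `z` if `R a b` and it is `o` otherwise; all other products are `o`. -/
inductive NS (A : Type) (R : A → A → Prop) : Type
  | el (a : A) : NS A R
  | z : NS A R
  | o : NS A R

namespace NS

variable {A : Type} {R : A → A → Prop}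

open Classical in
/-- The product. -/
noncomputable def mul : NS A R → NS A R → NS A R
  | el a, el b => if R a b then z else o
  | _, _ => o

noncomputable instance : Mul (NS A R) := ⟨mul⟩

theorem el_mul_el (a b : A) [Decidable (R a b)] :
    (el a : NS A R) * el b = if R a b then z else o := by
  show @ite (NS A R) (R a b) (Classical.propDecidable (R a b)) z o = ite (R a b) z o
  by_cases h : R a b
  · rw [if_pos h, if_pos h]
  · rw [if_neg h, if_neg h]

theorem z_mul (x : NS A R) : z * x = o := by cases x <;> rfl
theorem o_mul (x : NS A R) : o * x = o := by cases x <;> rfl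
theorem mul_z (x : NS A R) : x * z = o := by cases x <;> rfl
theorem mul_o (x : NS A R) : x * o = o := by cases x <;> rfl

theorem mul_mem (x y : NS A R) : x * y = z ∨ x * y = o := by
  classical
  rcases x with a | _ | _
  · rcases y with b | _ | _
    · rw [el_mul_el]
      by_cases h : R a b
      · rw [if_pos h]
        exact Or.inl rfl
      · rw [if_neg h]
        exact Or.inr rfl
    · exact Or.inr (mul_z _)
    · exact Or.inr (mul_o _)
  · exact Or.inr (z_mul _)
  · exact Or.inr (o_mul _)

theorem mul_mul_eq (x y w : NS A R) : x * y * w = o := by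
  rcases mul_mem x y with h | h <;> rw [h]
  · exact z_mul w
  · exact o_mul w

theorem mul_mul_eq' (x y w : NS A R) : x * (y * w) = o := by
  rcases mul_mem y w with h | h <;> rw [h]
  · exact mul_z x
  · exact mul_o x

noncomputable instance : Semigroup (NS A R) where
  mul_assoc x y w := by rw [mul_mul_eq, mul_mul_eq']

theorem comm_iff (a b : A) : (el a : NS A R) * el b = el b * el a ↔ (R a b ↔ R b a) := by
  classical
  rw [el_mul_el, el_mul_el]
  by_cases h1 : R a b <;> by_cases h2 : R b a <;> simp [h1, h2]

theorem z_comm (x : NS A R) : z * x = x * z := by rw [z_mul, mul_z]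
theorem o_comm (x : NS A R) : o * x = x * o := by rw [o_mul, mul_o]

/-- The elements of a product with a factor other than the external identity. -/
theorem prod_mem {p q : WithOne (NS A R)} (h : ¬ (p = 1 ∧ q = 1)) (x : NS A R) :
    p * (x : WithOne (NS A R)) * q = (z : NS A R) ∨ p * (x : WithOne (NS A R)) * q = (o : NS A R) := by
  rcases withOne_cases p with rfl | ⟨p, rfl⟩
  · rcases withOne_cases q with rfl | ⟨q, rfl⟩
    · exact absurd ⟨rfl, rfl⟩ h
    · rw [one_mul, ← WithOne.coe_mul]
      rcases mul_mem x q with h | h <;> rw [h]
      · exact Or.inl rfl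
      · exact Or.inr rfl
  · rcases withOne_cases q with rfl | ⟨q, rfl⟩
    · rw [mul_one, ← WithOne.coe_mul]
      rcases mul_mem p x with h | h <;> rw [h]
      · exact Or.inl rfl
      · exact Or.inr rfl
    · rw [← WithOne.coe_mul, ← WithOne.coe_mul, mul_mul_eq]
      exact Or.inr rfl

/-- Such products converge along a sequence with converging relations. -/
theorem prod_eventually {p q : WithOne (NS A R)} (hpq : ¬ (p = 1 ∧ q = 1)) {f : A} {h : ℕ → A}
    (h1 : ∀ a, ∀ᶠ n in atTop, (R a (h n) ↔ R a f)) (h2 : ∀ a, ∀ᶠ n in atTop, (R (h n) a ↔ R f a)) :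
    ∀ᶠ n in atTop, p * ((el (h n) : NS A R) : WithOne (NS A R)) * q =
      p * ((el f : NS A R) : WithOne (NS A R)) * q := by
  classical
  rcases withOne_cases p with rfl | ⟨p, rfl⟩
  · rcases withOne_cases q with rfl | ⟨q, rfl⟩
    · exact absurd ⟨rfl, rfl⟩ hpq
    · simp only [one_mul, ← WithOne.coe_mul]
      rcases q with b | _ | _
      · filter_upwards [h2 b] with n hn
        rw [el_mul_el, el_mul_el, if_congr hn rfl rfl]
      · exact Eventually.of_forall fun n => by rw [mul_z, mul_z]
      · exact Eventually.of_forall fun n => by rw [mul_o, mul_o]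
  · rcases withOne_cases q with rfl | ⟨q, rfl⟩
    · simp only [mul_one, ← WithOne.coe_mul]
      rcases p with b | _ | _
      · filter_upwards [h1 b] with n hn
        rw [el_mul_el, el_mul_el, if_congr hn rfl rfl]
      · exact Eventually.of_forall fun n => by rw [z_mul, z_mul]
      · exact Eventually.of_forall fun n => by rw [o_mul, o_mul]
    · refine Eventually.of_forall fun n => ?_
      simp only [← WithOne.coe_mul, mul_mul_eq]

/-- A sufficient condition for convergence in the semi-Zariski topology. -/
theorem tendsto_semiZariski {f : A} {h : ℕ → A} (h0 : ∀ a, ∀ᶠ n in atTop, h n ≠ a)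
    (h1 : ∀ a, ∀ᶠ n in atTop, (R a (h n) ↔ R a f)) (h2 : ∀ a, ∀ᶠ n in atTop, (R (h n) a ↔ R f a)) :
    Tendsto (fun n => (el (h n) : NS A R)) atTop (@nhds _ (semiZariski (NS A R)) (el f)) := by
  rw [tendsto_nhds_generateFrom_iff]
  have hel : ∀ (p q : WithOne (NS A R)), ¬ (p = 1 ∧ q = 1) → ∀ (x : NS A R) (a : A),
      p * (x : WithOne (NS A R)) * q ≠ ((el a : NS A R) : WithOne (NS A R)) := by
    intro p q hpq x a he
    rcases prod_mem hpq x with h | h <;> rw [h] at he
    · have := WithOne.coe_inj.1 he
      cases this
    · have := WithOne.coe_inj.1 he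
      cases this
  rintro U (⟨p, q, c, rfl⟩ | ⟨p, q, r, s, rfl⟩) hf
  · by_cases hpq : p = 1 ∧ q = 1
    · obtain ⟨rfl, rfl⟩ := hpq
      show ∀ᶠ n in atTop, 1 * ((el (h n) : NS A R) : WithOne (NS A R)) * 1 ≠ c
      simp only [one_mul, mul_one]
      rcases withOne_cases c with rfl | ⟨c, rfl⟩
      · exact Eventually.of_forall fun n => WithOne.coe_ne_one
      · rcases c with a | _ | _
        · filter_upwards [h0 a] with n hn he
          have := WithOne.coe_inj.1 he
          injection this with this
          exact hn this
        · refine Eventually.of_forall fun n he => ?_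
          have := WithOne.coe_inj.1 he
          cases this
        · refine Eventually.of_forall fun n he => ?_
          have := WithOne.coe_inj.1 he
          cases this
    · show ∀ᶠ n in atTop, p * ((el (h n) : NS A R) : WithOne (NS A R)) * q ≠ c
      filter_upwards [prod_eventually hpq h1 h2] with n hn
      rw [hn]
      exact hf
  · show ∀ᶠ n in atTop, p * ((el (h n) : NS A R) : WithOne (NS A R)) * q ≠
      r * ((el (h n) : NS A R) : WithOne (NS A R)) * s
    by_cases hpq : p = 1 ∧ q = 1
    · obtain ⟨rfl, rfl⟩ := hpq
      by_cases hrs : r = 1 ∧ s = 1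
      · obtain ⟨rfl, rfl⟩ := hrs
        exact absurd rfl hf
      · simp only [one_mul, mul_one]
        exact Eventually.of_forall fun n he => hel r s hrs _ _ he.symm
    · by_cases hrs : r = 1 ∧ s = 1
      · obtain ⟨rfl, rfl⟩ := hrs
        simp only [one_mul, mul_one]
        exact Eventually.of_forall fun n he => hel p q hpq _ _ he
      · filter_upwards [prod_eventually hpq h1 h2, prod_eventually hrs h1 h2] with n hn hn2
        rw [hn, hn2]
        exact hf

/-- The neighbours of an element: the elements which do not commute with it. -/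
def nb (R : A → A → Prop) (a : A) : Set A := {b | ¬ (R a b ↔ R b a)}

theorem mem_nb (a b : A) : b ∈ nb R a ↔ (el a : NS A R) * el b ≠ el b * el a := by
  rw [Ne, comm_iff]
  rfl

theorem nb_symm {a b : A} (h : b ∈ nb R a) : a ∈ nb R b := fun h2 => h h2.symm

/-- The double centralizer in terms of neighbours. -/
theorem mem_dc (F : Set (NS A R)) (x : A) : (el x : NS A R) ∈ Set.centralizer (Set.centralizer F) ↔
    ∀ y ∈ nb R x, ∃ f, el f ∈ F ∧ y ∈ nb R f := by
  constructor
  · intro h y hy
    by_contra hcon
    push Not at hcon
    have hyc : (el y : NS A R) ∈ Set.centralizer F := by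
      intro m hm
      rcases m with f | _ | _
      · have := hcon f hm
        rw [mem_nb, not_not] at this
        exact this
      · exact z_comm _
      · exact o_comm _
    have h2 := h _ hyc
    rw [mem_nb] at hy
    exact hy h2.symm
  · intro h m hm
    rcases m with y | _ | _
    · by_contra hne
      have hy : y ∈ nb R x := by
        rw [mem_nb]
        exact fun h2 => hne h2.symm
      obtain ⟨f, hf, hyf⟩ := h y hy
      rw [mem_nb] at hyf
      exact hyf (hm _ hf)
    · exact z_comm _
    · exact o_comm _

end NS

end Pool.Agent.V11277.SZ
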