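import Pool.Agent.V11277.Cap

/-!
# Exponential-logarithmic towers are covered by countably many holomorphic functions of the base
-/

set_option autoImplicit false

namespace Pool.Agent.V11277

open Filter Topology

theorem contDiffAt_of_open {U : Set ℂ} {f : ℂ → ℂ} (hU : IsOpen U) (hf : DifferentiableOn ℂ f U)
    {c : ℂ} (hc : c ∈ U) : ContDiffAt ℂ 1 f c :=
  (hf.analyticAt (hU.mem_nhds hc)).contDiffAt

theorem contDiffAt_fst_of {U : Set ℂ} {f : ℂ → ℂ} (hU : IsOpen U) (hf : DifferentiableOn ℂ f U)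
    {q : ℂ × ℂ} (hc : q.1 ∈ U) : ContDiffAt ℂ 1 (fun v : ℂ × ℂ => f v.1) q :=
  (contDiffAt_of_open hU hf hc).comp q contDiffAt_fst

/-- All values of the natural logarithm. -/
theorem cap_log : Cap {q : ℂ × ℂ | Complex.exp q.2 = q.1} := by
  refine cap_implicit (ι := Unit) (fun _ v => Complex.exp v.2 - v.1) _ ?_
  intro q hq
  refine ⟨(), ?_, ?_, Complex.exp q.2, Complex.exp_ne_zero _, ?_⟩
  · exact (Complex.contDiff_exp.comp contDiff_snd).contDiffAt.sub contDiffAt_fst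
  · replace hq : Complex.exp q.2 = q.1 := hq
    simp [hq]
  · simpa using (Complex.hasDerivAt_exp q.2).sub_const q.1

theorem cap_pow {A : Set (ℂ × ℂ)} (hA : Cap A) :
    Cap {q : ℂ × ℂ | q.1 ≠ 0 ∧ ∃ x, (q.1, x) ∈ A ∧ Complex.exp (x * Complex.log q.1) = q.2} := by
  obtain ⟨F, F1, F2, F3⟩ := hA
  obtain ⟨G, G1, G2, G3⟩ := cap_log
  have := F1.to_subtype
  have := G1.to_subtype
  refine cap_implicit (ι := F × G) (fun i v => v.2 - Complex.exp (i.1.1.2 v.1 * i.2.1.2 v.1)) _ ?_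
  rintro q ⟨hq0, x, hx, hxq⟩
  obtain ⟨p, hp, hpU, hpx⟩ := F3 _ hx
  obtain ⟨g, hg, hgU, hgx⟩ := G3 (q.1, Complex.log q.1) (Complex.exp_log hq0)
  simp only at hpU hpx hgU hgx
  refine ⟨(⟨p, hp⟩, ⟨g, hg⟩), ?_, ?_, 1, one_ne_zero, ?_⟩
  · refine contDiffAt_snd.sub (ContDiffAt.comp q Complex.contDiff_exp.contDiffAt ?_)
    exact (contDiffAt_fst_of (F2 p hp).1 (F2 p hp).2 hpU).mul
      (contDiffAt_fst_of (G2 g hg).1 (G2 g hg).2 hgU)
  · simp [hpx, hgx, hxq]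
  · simpa using (hasDerivAt_id q.2).sub_const (Complex.exp (p.2 q.1 * g.2 q.1))

theorem cap_Log {A : Set (ℂ × ℂ)} (hA : Cap A) :
    Cap {q : ℂ × ℂ | q.1 ≠ 0 ∧ q.1 ≠ 1 ∧ (q.1, Complex.exp (q.2 * Complex.log q.1)) ∈ A} := by
  obtain ⟨F, F1, F2, F3⟩ := hA
  obtain ⟨G, G1, G2, G3⟩ := cap_log
  have := F1.to_subtype
  have := G1.to_subtype
  refine cap_implicit (ι := F × G) (fun i v => Complex.exp (v.2 * i.2.1.2 v.1) - i.1.1.2 v.1) _ ?_
  rintro q ⟨hq0, hq1, hx⟩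
  obtain ⟨p, hp, hpU, hpx⟩ := F3 _ hx
  obtain ⟨g, hg, hgU, hgx⟩ := G3 (q.1, Complex.log q.1) (Complex.exp_log hq0)
  simp only at hpU hpx hgU hgx
  have hlog : Complex.log q.1 ≠ 0 := by
    intro h
    apply hq1
    rw [← Complex.exp_log hq0, h, Complex.exp_zero]
  refine ⟨(⟨p, hp⟩, ⟨g, hg⟩), ?_, ?_,
    Complex.exp (q.2 * Complex.log q.1) * Complex.log q.1,
    mul_ne_zero (Complex.exp_ne_zero _) hlog, ?_⟩
  · refine ContDiffAt.sub (ContDiffAt.comp q Complex.contDiff_exp.contDiffAt ?_)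
      (contDiffAt_fst_of (F2 p hp).1 (F2 p hp).2 hpU)
    exact contDiffAt_snd.mul (contDiffAt_fst_of (G2 g hg).1 (G2 g hg).2 hgU)
  · simp [hpx, hgx]
  · have h1 : HasDerivAt (fun y : ℂ => y * Complex.log q.1) (Complex.log q.1) q.2 := by
      simpa using (hasDerivAt_id q.2).mul_const (Complex.log q.1)
    have h2 := (h1.cexp).sub_const (p.2 q.1)
    simp only [hgx]
    exact h2

theorem contDiffAt_aeval {m : ℕ} (r : MvPolynomial (Fin m) ℚ) (f : Fin m → ℂ × ℂ → ℂ) (q : ℂ × ℂ)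
    (hf : ∀ i, ContDiffAt ℂ 1 (f i) q) :
    ContDiffAt ℂ 1 (fun v => MvPolynomial.aeval (fun i => f i v) r) q := by
  induction r using MvPolynomial.induction_on with
  | C a => simpa using contDiffAt_const
  | add a b ha hb => simpa using ha.add hb
  | mul_X a i ha => simpa using ha.mul (hf i)

theorem cap_poly {D : Set ℂ} {T : ℂ → Set ℂ} (hT : Cap {q | q.1 ∈ D ∧ q.2 ∈ T q.1}) :
    Cap {q : ℂ × ℂ | q.1 ∈ D ∧ ∃ r : MvPolynomial (T q.1) ℚ,
      MvPolynomial.aeval (Subtype.val : T q.1 → ℂ) r = q.2} := by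
  obtain ⟨F, F1, F2, F3⟩ := hT
  have := F1.to_subtype
  have : ∀ m : ℕ, Countable (MvPolynomial (Fin m) ℚ) := fun m => by
    have h1 : Cardinal.mk (MvPolynomial (Fin m) ℚ) ≤ Cardinal.aleph0 := by
      refine MvPolynomial.cardinalMk_le_max.trans ?_
      simp
    exact Cardinal.mk_le_aleph0_iff.1 h1
  refine cap_implicit (ι := Σ m : ℕ, MvPolynomial (Fin m) ℚ × (Fin m → F))
    (fun i v => v.2 - MvPolynomial.aeval (fun j => (i.2.2 j).1.2 v.1) i.2.1) _ ?_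
  rintro q ⟨hD, r, hr⟩
  obtain ⟨m, e, -, s, rfl⟩ := MvPolynomial.exists_fin_rename r
  choose p hp hpU hpx using fun j : Fin m => F3 (q.1, (e j : ℂ)) ⟨hD, (e j).2⟩
  refine ⟨⟨m, s, fun j => ⟨p j, hp j⟩⟩, ?_, ?_, 1, one_ne_zero, ?_⟩
  · refine contDiffAt_snd.sub (contDiffAt_aeval s (fun j v => (p j).2 v.1) q fun j => ?_)
    exact contDiffAt_fst_of (F2 _ (hp j)).1 (F2 _ (hp j)).2 (hpU j)
  · rw [MvPolynomial.aeval_rename] at hr
    have : (fun j => (p j).2 q.1) = (Subtype.val : T q.1 → ℂ) ∘ e := by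
      funext j
      exact hpx j
    simp only [this, hr, sub_self]
  · simpa using (hasDerivAt_id q.2).sub_const (MvPolynomial.aeval (fun j => (p j).2 q.1) s)

theorem cap_div {A B : Set (ℂ × ℂ)} (hA : Cap A) (hB : Cap B) :
    Cap {q : ℂ × ℂ | ∃ x y, (q.1, x) ∈ A ∧ (q.1, y) ∈ B ∧ x / y = q.2} := by
  obtain ⟨F, F1, F2, F3⟩ := hA
  obtain ⟨G, G1, G2, G3⟩ := hB
  have := F1.to_subtype
  have := G1.to_subtype
  refine cap_implicit (ι := Option (F × G)) (fun i v => match i with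
    | none => v.2
    | some i => v.2 * i.2.1.2 v.1 - i.1.1.2 v.1) _ ?_
  rintro q ⟨x, y, hx, hy, hxy⟩
  by_cases hy0 : y = 0
  · refine ⟨none, contDiffAt_snd, ?_, 1, one_ne_zero, ?_⟩
    · simp [← hxy, hy0]
    · exact hasDerivAt_id' q.2
  · obtain ⟨p, hp, hpU, hpx⟩ := F3 _ hx
    obtain ⟨g, hg, hgU, hgx⟩ := G3 _ hy
    simp only at hpU hpx hgU hgx
    refine ⟨some (⟨p, hp⟩, ⟨g, hg⟩), ?_, ?_, y, hy0, ?_⟩
    · exact (contDiffAt_snd.mul (contDiffAt_fst_of (G2 g hg).1 (G2 g hg).2 hgU)).sub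
        (contDiffAt_fst_of (F2 p hp).1 (F2 p hp).2 hpU)
    · simp only [hpx, hgx, ← hxy]
      field_simp
      ring
    · simp only [hgx]
      simpa using ((hasDerivAt_id q.2).mul_const y).sub_const (p.2 q.1)

theorem cap_adjoin {D : Set ℂ} {T : ℂ → Set ℂ} (hT : Cap {q | q.1 ∈ D ∧ q.2 ∈ T q.1}) :
    Cap {q : ℂ × ℂ | q.1 ∈ D ∧ q.2 ∈ IntermediateField.adjoin ℚ (T q.1)} := by
  refine (cap_div (cap_poly hT) (cap_poly hT)).mono ?_
  rintro q ⟨hD, hq⟩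
  obtain ⟨r, s, h⟩ := (IntermediateField.mem_adjoin_iff ℚ q.2).1 hq
  exact ⟨MvPolynomial.aeval Subtype.val r, MvPolynomial.aeval Subtype.val s, ⟨hD, r, rfl⟩,
    ⟨hD, s, rfl⟩, h.symm⟩

theorem cap_algebraic {D : Set ℂ} {K : ℂ → IntermediateField ℚ ℂ}
    (hT : Cap {q | q.1 ∈ D ∧ q.2 ∈ K q.1}) :
    Cap {q : ℂ × ℂ | q.1 ∈ D ∧ IsAlgebraic (K q.1) q.2} := by
  obtain ⟨F, F1, F2, F3⟩ := hT
  have := F1.to_subtype
  refine cap_implicit (ι := Σ m : ℕ, (Fin m → F))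
    (fun i v => ∑ j, (i.2 j).1.2 v.1 * v.2 ^ (j : ℕ)) _ ?_
  rintro q ⟨hD, hq⟩
  have hint : IsIntegral (K q.1) q.2 := hq.isIntegral
  set P := minpoly (K q.1) q.2 with hP
  have hsep : P.Separable := (minpoly.irreducible hint).separable
  have h0 : Polynomial.aeval q.2 P = 0 := minpoly.aeval _ _
  have h1 : Polynomial.aeval q.2 (Polynomial.derivative P) ≠ 0 :=
    hsep.aeval_derivative_ne_zero h0
  set m := P.natDegree + 1 with hm
  choose p hp hpU hpx using fun j : Fin m => F3 (q.1, (P.coeff j : ℂ)) ⟨hD, (P.coeff j).2⟩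
  have hev : ∀ y : ℂ, ∑ j : Fin m, (p j).2 q.1 * y ^ (j : ℕ) = Polynomial.aeval y P := by
    intro y
    rw [Polynomial.aeval_eq_sum_range, ← Fin.sum_univ_eq_sum_range
      (fun j => P.coeff j • y ^ j) m]
    refine Finset.sum_congr rfl fun j _ => ?_
    rw [hpx j]
    rfl
  refine ⟨⟨m, fun j => ⟨p j, hp j⟩⟩, ?_, ?_, _, h1, ?_⟩
  · refine ContDiffAt.sum fun j _ => ?_
    have h2 : ContDiffAt ℂ 1 (fun v : ℂ × ℂ => (p j).2 v.1) q :=
      contDiffAt_fst_of (F2 _ (hp j)).1 (F2 _ (hp j)).2 (hpU j)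
    exact h2.mul (contDiffAt_snd.pow _)
  · simp only
    rw [hev, h0]
  · simp only
    simp_rw [hev]
    exact P.hasDerivAt_aeval q.2

end Pool.Agent.V11277
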