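import Mathlib

/-!
# Elementary facts about the weak topology of a normed space
-/

set_option autoImplicit false

namespace Pool.Agent.V11277

open Filter Topology

variable {X : Type*} [NormedAddCommGroup X] [NormedSpace ℝ X]

theorem weak_tendsto {ι : Type*} {l : Filter ι} {f : ι → X} {x : X}
    (h : ∀ φ : X →L[ℝ] ℝ, Tendsto (fun i => φ (f i)) l (𝓝 (φ x))) :
    Tendsto (fun i => toWeakSpace ℝ X (f i)) l (𝓝 (toWeakSpace ℝ X x)) := by
  have hi : Topology.IsInducing (fun (x : WeakSpace ℝ X) (y : X →L[ℝ] ℝ) =>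
    (topDualPairing ℝ X).flip x y) := ⟨rfl⟩
  rw [hi.tendsto_nhds_iff, tendsto_pi_nhds]
  exact h

theorem weak_continuous (φ : X →L[ℝ] ℝ) :
    Continuous fun x : WeakSpace ℝ X => φ ((toWeakSpace ℝ X).symm x) :=
  WeakBilin.eval_continuous (topDualPairing ℝ X).flip φ

/-- A weak neighbourhood of `x` contains the set of the `y` such that finitely many functionals are
small at `y - x`. -/
theorem weak_nhds {U : Set (WeakSpace ℝ X)} (hU : IsOpen U) {x : X}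
    (hx : toWeakSpace ℝ X x ∈ U) :
    ∃ (s : Finset (X →L[ℝ] ℝ)) (ε : ℝ), 0 < ε ∧ ∀ y : X, (∀ φ ∈ s, |φ (y - x)| < ε) →
      toWeakSpace ℝ X y ∈ U := by
  have hi : Topology.IsInducing (fun (x : WeakSpace ℝ X) (y : X →L[ℝ] ℝ) =>
    (topDualPairing ℝ X).flip x y) := ⟨rfl⟩
  have h1 := hU.mem_nhds hx
  rw [hi.nhds_eq_comap, mem_comap] at h1
  obtain ⟨t, ht, htU⟩ := h1
  rw [nhds_pi, Filter.mem_pi] at ht
  obtain ⟨I, hI, V, hV, hVt⟩ := ht
  have h2 : ∀ φ : X →L[ℝ] ℝ, ∃ ε > 0, ∀ y : X, |φ (y - x)| < ε → φ y ∈ V φ := by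
    intro φ
    obtain ⟨ε, hε, h⟩ := Metric.mem_nhds_iff.1 (hV φ)
    refine ⟨ε, hε, fun y hy => h ?_⟩
    rw [Metric.mem_ball, Real.dist_eq]
    have : φ y - φ x = φ (y - x) := (map_sub φ y x).symm
    show |φ y - φ x| < ε
    rw [this]
    exact hy
  choose ε hε h using h2
  by_cases hne : hI.toFinset.Nonempty
  · obtain ⟨ψ, hψ, hmin⟩ := hI.toFinset.exists_min_image ε hne
    refine ⟨hI.toFinset, ε ψ, hε ψ, fun y hy => htU ?_⟩
    exact hVt fun φ hφ => h φ y ((hy φ (hI.mem_toFinset.2 hφ)).trans_le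
      (hmin φ (hI.mem_toFinset.2 hφ)))
  · refine ⟨∅, 1, one_pos, fun y _ => htU (hVt fun φ hφ => ?_)⟩
    exact absurd ⟨φ, hI.mem_toFinset.2 hφ⟩ hne

end Pool.Agent.V11277
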